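import Pool.Agent.Work.MP_8e9dbb.Main

/-!
# MP_8e9dbb_gt, Q1: a monotone path from the round sphere to the doubled equilateral triangle

The path has four phases, all with the symmetries of a rhombus: a round sphere slit along a short
arc (R'), a family of constant area and systole (S', F), and a family of surfaces with a wide flat
part ending at the doubled triangle (T).  The definitions are in
`Pool.Agent.Work.MP_8e9dbb.Defs`.
-/

theorem Pool.Agent.Results.MP_8e9dbb_gt.MonotonePath.result : Pool.MP8e.MonotonePath :=
  Pool.MP8e.main
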